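import Pool.Agent.P8H88.LRQ.Three

/-!
# Linear restrictions on representations by `x² + y² + z² + 2 w²`

For the linear forms `a x + b y + c z + d w` whose coefficient vector is a positive multiple of one of
`(1,0,0,0)`, `(0,0,0,1)`, `(2,0,0,1)`, `(1,1,0,0)`, `(1,1,0,2)`, `(2,1,1,2)`, `(3,2,1,2)`,
`(5,2,1,2)`, `(3,2,1,6)`, up to a permutation of the first three coordinates, EVERY positive integer `n` has a
representation `n = x² + y² + z² + 2 w²` in which the value of the linear form lies in a set with at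
most two elements; for the last six directions it is a constant. (Without
`(2,0,0,1)` these are the primitive vectors for which `2 (a² + b² + c²) + d²` is `1, 2, 4, 8, 16, 32`
or `64`.)
-/

set_option autoImplicit false

namespace Pool.Agent.Results.MP_063baf_nt.DyadicDirections

/-- the directions `(a, b, c, d)` together with the set of the values of the linear form -/
def Dirs : List ((ℕ × ℕ × ℕ × ℕ) × List ℕ) :=
  [((1, 0, 0, 0), [0, 1]), ((0, 0, 0, 1), [0, 1]), ((2, 0, 0, 1), [1, 2]), ((1, 1, 0, 0), [1]),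
    ((1, 1, 0, 2), [1]), ((2, 1, 1, 2), [2]), ((3, 2, 1, 2), [2]), ((5, 2, 1, 2), [2]),
    ((3, 2, 1, 6), [2])]

/-- Let `v = (v₁, v₂, v₃, v₄)` be one of the nine directions, with its set `T` of values, `k` a natural
number, `d = k v₄` and `(a, b, c)` a permutation of `(k v₁, k v₂, k v₃)`. Then every `n ≥ 1` is
`x² + y² + z² + 2 w²` with integers `x, y, z, w` such that `a x + b y + c z + d w = k t`, `t ∈ T`. -/
theorem result (v : (ℕ × ℕ × ℕ × ℕ) × List ℕ) (hv : v ∈ Dirs) (k a b c d : ℕ)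
    (σ : Equiv.Perm (Fin 3)) (habc : ∀ i, ![a, b, c] i = k * ![v.1.1, v.1.2.1, v.1.2.2.1] (σ i))
    (hd : d = k * v.1.2.2.2) (n : ℕ) (hn : 1 ≤ n) :
    ∃ x y z w : ℤ, (n : ℤ) = x ^ 2 + y ^ 2 + z ^ 2 + 2 * w ^ 2 ∧
      ∃ t ∈ v.2, (a : ℤ) * x + b * y + c * z + d * w = k * t := by
  have core : ∃ x y z w : ℤ, (n : ℤ) = x ^ 2 + y ^ 2 + z ^ 2 + 2 * w ^ 2 ∧
      ∃ t ∈ v.2, (v.1.1 : ℤ) * x + v.1.2.1 * y + v.1.2.2.1 * z + v.1.2.2.2 * w = t := by
    simp only [Dirs, List.mem_cons, List.not_mem_nil, or_false] at hv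
    rcases hv with rfl | rfl | rfl | rfl | rfl | rfl | rfl | rfl | rfl
    · obtain ⟨x, y, z, w, h, h1⟩ := Pool.Agent.P8H88.LRQ.d1 hn
      rcases h1 with h1 | h1
      · exact ⟨x, y, z, w, h, 0, by simp, by rw [h1]; push_cast; ring⟩
      · exact ⟨x, y, z, w, h, 1, by simp, by rw [h1]; push_cast; ring⟩
    · obtain ⟨x, y, z, w, h, h1⟩ := Pool.Agent.P8H88.LRQ.d2 hn
      rcases h1 with h1 | h1
      · exact ⟨x, y, z, w, h, 0, by simp, by rw [h1]; push_cast; ring⟩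
      · exact ⟨x, y, z, w, h, 1, by simp, by rw [h1]; push_cast; ring⟩
    · obtain ⟨x, y, z, w, h, h1⟩ := Pool.Agent.P8H88.LRQ.d9 hn
      rcases h1 with h1 | h1
      · exact ⟨x, y, z, w, h, 1, by simp, by push_cast; linarith⟩
      · exact ⟨x, y, z, w, h, 2, by simp, by push_cast; linarith⟩
    · obtain ⟨x, y, z, w, h, h1⟩ := Pool.Agent.P8H88.LRQ.d3 hn
      exact ⟨x, y, z, w, h, 1, by simp, by push_cast; linarith⟩
    · obtain ⟨x, y, z, w, h, h1⟩ := Pool.Agent.P8H88.LRQ.d4 hn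
      exact ⟨x, y, z, w, h, 1, by simp, by push_cast; linarith⟩
    · obtain ⟨x, y, z, w, h, h1⟩ := Pool.Agent.P8H88.LRQ.d5 hn
      exact ⟨x, y, z, w, h, 2, by simp, by push_cast; linarith⟩
    · obtain ⟨x, y, z, w, h, h1⟩ := Pool.Agent.P8H88.LRQ.d6 hn
      exact ⟨x, y, z, w, h, 2, by simp, by push_cast; linarith⟩
    · obtain ⟨x, y, z, w, h, h1⟩ := Pool.Agent.P8H88.LRQ.d7 hn
      exact ⟨x, y, z, w, h, 2, by simp, by push_cast; linarith⟩
    · obtain ⟨x, y, z, w, h, h1⟩ := Pool.Agent.P8H88.LRQ.d8 hn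
      exact ⟨x, y, z, w, h, 2, by simp, by push_cast; linarith⟩
  obtain ⟨x, y, z, w, h, t, ht, h1⟩ := core
  obtain ⟨X, hX⟩ : ∃ X : Fin 3 → ℤ, X = ![x, y, z] := ⟨_, rfl⟩
  have e1 : X (σ 0) ^ 2 + X (σ 1) ^ 2 + X (σ 2) ^ 2 = x ^ 2 + y ^ 2 + z ^ 2 := by
    have := Equiv.sum_comp σ (fun i => X i ^ 2)
    rw [Fin.sum_univ_three, Fin.sum_univ_three] at this
    rw [this, hX]
    rfl
  have e2 : (a : ℤ) * X (σ 0) + b * X (σ 1) + c * X (σ 2) =
      k * (v.1.1 * x + v.1.2.1 * y + v.1.2.2.1 * z) := by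
    have h2 := Equiv.sum_comp σ
      (fun i => ((k * ![v.1.1, v.1.2.1, v.1.2.2.1] i : ℕ) : ℤ) * X i)
    rw [Fin.sum_univ_three, Fin.sum_univ_three, ← habc 0, ← habc 1, ← habc 2] at h2
    have h3 : ((![a, b, c] 0 : ℕ) : ℤ) * X (σ 0) + ((![a, b, c] 1 : ℕ) : ℤ) * X (σ 1) +
        ((![a, b, c] 2 : ℕ) : ℤ) * X (σ 2) = (a : ℤ) * X (σ 0) + b * X (σ 1) + c * X (σ 2) := rfl
    rw [← h3, h2, hX]
    show ((k * v.1.1 : ℕ) : ℤ) * x + ((k * v.1.2.1 : ℕ) : ℤ) * y + ((k * v.1.2.2.1 : ℕ) : ℤ) * z = _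
    push_cast
    ring
  refine ⟨X (σ 0), X (σ 1), X (σ 2), w, by rw [e1, h], t, ht, ?_⟩
  rw [e2, hd, ← h1]
  push_cast
  ring

end Pool.Agent.Results.MP_063baf_nt.DyadicDirections
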